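import Pool.Agent.helper15.P2.SpecC
import Pool.Agent.helper49.P2.OSG

set_option autoImplicit false

open scoped ContDiff Topology ComplexConjugate ENNReal
open MeasureTheory Filter Set Metric

namespace Pool.Agent.P2B

open Pool.Agent.P2 Pool.Agent.P2I

/-- the sum of a series of holomorphic functions of two variables with a summable majorant -/
theorem BCC_sum {ι : Type} (f : ι → ℂ × ℂ → ℂ) (u : ι → ℝ) (U : Set (ℂ × ℂ)) (hU : IsOpen U)
    (hf : ∀ i, DifferentiableOn ℂ (f i) U) (hu : Summable u) (hb : ∀ i, ∀ x ∈ U, ‖f i x‖ ≤ u i) :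
    DifferentiableOn ℂ (fun x => ∑' i, f i x) U := by
  intro x hx
  obtain ⟨R, hR, hRU⟩ := Metric.isOpen_iff.1 hU x hx
  have h2 : ∀ y ∈ ball x (R / 2), ball y (R / 2) ⊆ U := by
    intro y hy z hz
    apply hRU
    rw [mem_ball] at hy hz ⊢
    calc dist z x ≤ dist z y + dist y x := dist_triangle _ _ _
      _ < R / 2 + R / 2 := add_lt_add hz hy
      _ = R := add_halves R
  have hxb : x ∈ ball x (R / 2) := mem_ball_self (by linarith)
  have hder : HasFDerivAt (fun x => ∑' i, f i x) (∑' i, fderiv ℂ (f i) x) x := by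
    refine hasFDerivAt_tsum_of_isPreconnected (u := fun i => 2 * u i / (R / 2)) ?_ isOpen_ball
      (convex_ball x (R / 2)).isPreconnected (fun i y hy => ?_) (fun i y hy => ?_) hxb ?_ hxb
    · exact (hu.mul_left 2).div_const _
    · have hyU : y ∈ U := h2 y hy (mem_ball_self (by linarith))
      exact ((hf i).differentiableAt (hU.mem_nhds hyU)).hasFDerivAt
    · exact OSG_bound (by linarith) ((hf i).mono (h2 y hy)) fun z hz => hb i z (h2 y hy hz)
    · exact Summable.of_norm_bounded hu fun i => hb i x hx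
  exact hder.differentiableAt.differentiableWithinAt

/-- iterated derivative in the second variable -/
theorem BCC_iter {f : ℂ × ℂ → ℂ} {ε : ℝ}
    (hf : DifferentiableOn ℂ f (ball (0 : ℂ) ε ×ˢ ball (0 : ℂ) ε)) (j : ℕ) :
    ∃ g : ℂ × ℂ → ℂ, DifferentiableOn ℂ g (ball (0 : ℂ) ε ×ˢ ball (0 : ℂ) ε) ∧
      ∀ z ∈ ball (0 : ℂ) ε, ∀ v ∈ ball (0 : ℂ) ε,
        iteratedDeriv j (fun v => f (z, v)) v = g (z, v) := by
  induction j with
  | zero => exact ⟨f, hf, fun z _ v _ => by rw [iteratedDeriv_zero]⟩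
  | succ j ih =>
    obtain ⟨g, hg, hgj⟩ := ih
    have hO : IsOpen (ball (0 : ℂ) ε ×ˢ ball (0 : ℂ) ε) := isOpen_ball.prod isOpen_ball
    refine ⟨fun p => fderiv ℂ g p (0, 1), OSG_dir hO hg (0, 1), ?_⟩
    intro z hz v hv
    rw [iteratedDeriv_succ]
    have h1 : iteratedDeriv j (fun v => f (z, v)) =ᶠ[𝓝 v] fun v => g (z, v) := by
      filter_upwards [isOpen_ball.mem_nhds hv] with w hw
      exact hgj z hz w hw
    rw [h1.deriv_eq]
    have h2 : HasFDerivAt g (fderiv ℂ g (z, v)) (z, v) :=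
      (hg.differentiableAt (hO.mem_nhds ⟨hz, hv⟩)).hasFDerivAt
    have h3 : HasDerivAt (fun w : ℂ => (z, w)) ((0 : ℂ), (1 : ℂ)) v :=
      (hasDerivAt_const v z).prodMk (hasDerivAt_id v)
    exact (HasFDerivAt.comp_hasDerivAt (f := fun w : ℂ => (z, w)) v h2 h3).deriv

/-- double Taylor expansion -/
theorem BCC_taylor {f : ℂ × ℂ → ℂ} {ε : ℝ} (a : ℕ → ℕ → ℂ)
    (hf : DifferentiableOn ℂ f (ball (0 : ℂ) ε ×ˢ ball (0 : ℂ) ε)) (hε : 0 < ε)
    (ha : ∀ i j : ℕ, iteratedDeriv i (fun z => iteratedDeriv j (fun v => f (z, v)) 0) 0 =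
      (i.factorial : ℂ) * (j.factorial : ℂ) * a i j) {z v : ℂ} (hz : z ∈ ball (0 : ℂ) ε)
    (hv : v ∈ ball (0 : ℂ) ε) (hs : Summable fun p : ℕ × ℕ => a p.1 p.2 * z ^ p.1 * v ^ p.2) :
    ∑' p : ℕ × ℕ, a p.1 p.2 * z ^ p.1 * v ^ p.2 = f (z, v) := by
  have h0 : (0 : ℂ) ∈ ball (0 : ℂ) ε := mem_ball_self hε
  -- the inner sums
  have hinner : ∀ j : ℕ, HasSum (fun i => a i j * z ^ i * v ^ j)
      ((j.factorial : ℂ)⁻¹ • (v - 0) ^ j • iteratedDeriv j (fun v => f (z, v)) 0) := by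
    intro j
    obtain ⟨g, hg, hgj⟩ := BCC_iter hf j
    have hb : DifferentiableOn ℂ (fun z => iteratedDeriv j (fun v => f (z, v)) 0)
        (ball (0 : ℂ) ε) := by
      have h1 : DifferentiableOn ℂ (fun z : ℂ => g (z, 0)) (ball (0 : ℂ) ε) := by
        apply hg.comp (f := fun z : ℂ => ((z, 0) : ℂ × ℂ))
        · exact (differentiable_id.prodMk (differentiable_const (0 : ℂ))).differentiableOn
        · intro w hw
          exact ⟨hw, h0⟩
      exact h1.congr fun w hw => hgj w hw 0 h0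
    have h2 := Complex.hasSum_taylorSeries_on_ball hb hz
    have h3 := (h2.mul_left ((j.factorial : ℂ)⁻¹ * v ^ j))
    have hjf : (j.factorial : ℂ) ≠ 0 := by exact_mod_cast j.factorial_ne_zero
    have e1 : (fun i : ℕ => (j.factorial : ℂ)⁻¹ * v ^ j * ((i.factorial : ℂ)⁻¹ • (z - 0) ^ i •
        iteratedDeriv i (fun z => iteratedDeriv j (fun v => f (z, v)) 0) 0)) =
        fun i => a i j * z ^ i * v ^ j := by
      funext i
      have hif : (i.factorial : ℂ) ≠ 0 := by exact_mod_cast i.factorial_ne_zero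
      rw [ha i j, smul_eq_mul, smul_eq_mul, sub_zero]
      field_simp
    rw [e1] at h3
    have e2 : (j.factorial : ℂ)⁻¹ • (v - 0) ^ j • iteratedDeriv j (fun v => f (z, v)) 0 =
        (j.factorial : ℂ)⁻¹ * v ^ j * iteratedDeriv j (fun v => f (z, v)) 0 := by
      rw [smul_eq_mul, smul_eq_mul, sub_zero, mul_assoc]
    rw [e2]
    exact h3
  -- the outer sum
  have houter : HasSum (fun j : ℕ => (j.factorial : ℂ)⁻¹ • (v - 0) ^ j •
      iteratedDeriv j (fun v => f (z, v)) 0) (f (z, v)) := by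
    have h1 : DifferentiableOn ℂ (fun v : ℂ => f (z, v)) (ball (0 : ℂ) ε) := by
      apply hf.comp (f := fun v : ℂ => ((z, v) : ℂ × ℂ))
      · exact ((differentiable_const z).prodMk differentiable_id).differentiableOn
      · intro w hw
        exact ⟨hz, hw⟩
    exact Complex.hasSum_taylorSeries_on_ball h1 hv
  -- the double sum
  have hsw : HasSum (fun p : ℕ × ℕ => a p.2 p.1 * z ^ p.2 * v ^ p.1)
      (∑' p : ℕ × ℕ, a p.1 p.2 * z ^ p.1 * v ^ p.2) := by
    have h1 := (Equiv.prodComm ℕ ℕ).hasSum_iff.2 hs.hasSum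
    exact h1
  have h4 := hsw.prod_fiberwise hinner
  exact h4.unique houter

/-- the identity theorem -/
theorem BCC_ident {G : ℂ × ℂ → ℂ} {a b ε : ℝ} (hε : 0 < ε)
    (hG : DifferentiableOn ℂ G (ball (0 : ℂ) a ×ˢ ball (0 : ℂ) b))
    (h0 : ∀ z ∈ ball (0 : ℂ) ε, ∀ v ∈ ball (0 : ℂ) ε, z ∈ ball (0 : ℂ) a → v ∈ ball (0 : ℂ) b →
      G (z, v) = 0) :
    ∀ z ∈ ball (0 : ℂ) a, ∀ v ∈ ball (0 : ℂ) b, G (z, v) = 0 := by
  intro z hz v hv
  have hRo : IsOpen (ball (0 : ℂ) a ×ˢ ball (0 : ℂ) b) := isOpen_ball.prod isOpen_ball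
  have hRc : Convex ℝ (ball (0 : ℂ) a ×ˢ ball (0 : ℂ) b) :=
    (convex_ball _ _).prod (convex_ball _ _)
  set ℓ : ℂ → ℂ × ℂ := fun s => (s * z, s * v) with hℓ
  have hℓd : Differentiable ℂ ℓ :=
    (differentiable_id.mul_const z).prodMk (differentiable_id.mul_const v)
  set D : Set ℂ := ℓ ⁻¹' (ball (0 : ℂ) a ×ˢ ball (0 : ℂ) b) with hD
  have hDo : IsOpen D := hRo.preimage hℓd.continuous
  have hDc : IsPreconnected D := by
    apply Convex.isPreconnected
    intro s hs t ht α β hα hβ hαβ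
    have h1 := hRc hs ht hα hβ hαβ
    have h2 : α • ℓ s + β • ℓ t = ℓ (α • s + β • t) := by
      simp only [hℓ, Prod.smul_mk, Prod.mk_add_mk, add_mul, smul_mul_assoc]
    rw [h2] at h1
    exact h1
  have h0D : (0 : ℂ) ∈ D := by
    have ha : 0 < a := pos_of_mem_ball hz
    have hb : 0 < b := pos_of_mem_ball hv
    refine ⟨?_, ?_⟩
    · simp only [hℓ, zero_mul]
      exact mem_ball_self ha
    · simp only [hℓ, zero_mul]
      exact mem_ball_self hb
  have h1D : (1 : ℂ) ∈ D := by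
    refine ⟨?_, ?_⟩
    · simp only [hℓ, one_mul]
      exact hz
    · simp only [hℓ, one_mul]
      exact hv
  have hg : DifferentiableOn ℂ (fun s => G (ℓ s)) D :=
    hG.comp hℓd.differentiableOn fun s hs => hs
  have hga : AnalyticOnNhd ℂ (fun s => G (ℓ s)) D := hg.analyticOnNhd hDo
  have hev : (fun s => G (ℓ s)) =ᶠ[𝓝 0] 0 := by
    have hc : ContinuousAt ℓ 0 := hℓd.continuous.continuousAt
    have h2 : ball (0 : ℂ) ε ×ˢ ball (0 : ℂ) ε ∈ 𝓝 (ℓ 0) := by
      apply (isOpen_ball.prod isOpen_ball).mem_nhds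
      simp only [hℓ, zero_mul]
      exact ⟨mem_ball_self hε, mem_ball_self hε⟩
    filter_upwards [hc.eventually_mem h2, hDo.mem_nhds h0D] with s hs hsD
    exact h0 _ hs.1 _ hs.2 hsD.1 hsD.2
  have h3 := hga.eqOn_zero_of_preconnected_of_eventuallyEq_zero hDc h0D hev h1D
  have h4 : ℓ 1 = (z, v) := by simp only [hℓ, one_mul]
  have h5 : G (ℓ 1) = 0 := h3
  rwa [h4] at h5

end Pool.Agent.P2B
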