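import Pool.Agent.helper25.P2.BCCa
import Pool.Agent.helper25.P2.BCCb

set_option autoImplicit false

open scoped ContDiff Topology ComplexConjugate ENNReal
open MeasureTheory Filter Set Metric

namespace Pool.Agent.P2B

open Pool.Agent.P2 Pool.Agent.P2I

theorem BCC_cf0 (P Q : ℂ × ℂ → ℂ) (x : ℂ) : cf P Q 0 0 x = x := by
  unfold cf
  simp

theorem BCC_hasSum_u :
    HasSum (fun p : ℕ × ℕ => (1 / 8 : ℝ) ^ p.1 * (1 / 8 : ℝ) ^ p.2) (64 / 49) := by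
  have h1 : HasSum (fun n : ℕ => (1 / 8 : ℝ) ^ n) (8 / 7) := by
    have := hasSum_geometric_of_lt_one (by norm_num : (0 : ℝ) ≤ 1 / 8) (by norm_num : (1 / 8 : ℝ) < 1)
    have e : (1 - 1 / 8 : ℝ)⁻¹ = 8 / 7 := by norm_num
    rwa [e] at this
  have h2 : Summable fun p : ℕ × ℕ => (1 / 8 : ℝ) ^ p.1 * (1 / 8 : ℝ) ^ p.2 :=
    h1.summable.mul_of_nonneg h1.summable (fun n => by positivity) (fun n => by positivity)
  have h3 := h1.mul h1 h2
  have e : (8 / 7 : ℝ) * (8 / 7) = 64 / 49 := by norm_num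
  rwa [e] at h3

/-- the bound of the terms -/
theorem BCC_term {c z v : ℂ} {κ r K : ℝ} (hκ : 0 < κ) (hr : 0 < r) (hK : 1 ≤ K) {i j : ℕ}
    (hc : ‖c‖ ≤ (K / κ) ^ i * (K / r) ^ j) (hz : ‖z‖ < κ / (8 * K)) (hv : ‖v‖ < r / (8 * K)) :
    ‖c * z ^ i * v ^ j‖ ≤ (1 / 8 : ℝ) ^ i * (1 / 8 : ℝ) ^ j := by
  have hK0 : 0 < K := by linarith
  rw [norm_mul, norm_mul, norm_pow, norm_pow]
  have h1 : ‖z‖ ^ i ≤ (κ / (8 * K)) ^ i := pow_le_pow_left₀ (norm_nonneg _) hz.le i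
  have h2 : ‖v‖ ^ j ≤ (r / (8 * K)) ^ j := pow_le_pow_left₀ (norm_nonneg _) hv.le j
  calc ‖c‖ * ‖z‖ ^ i * ‖v‖ ^ j
      ≤ (K / κ) ^ i * (K / r) ^ j * (κ / (8 * K)) ^ i * (r / (8 * K)) ^ j := by
        apply mul_le_mul _ h2 (by positivity) (by positivity)
        exact mul_le_mul hc h1 (by positivity) (by positivity)
    _ = ((K / κ) * (κ / (8 * K))) ^ i * ((K / r) * (r / (8 * K))) ^ j := by
        rw [mul_pow, mul_pow]
        ring
    _ = (1 / 8 : ℝ) ^ i * (1 / 8 : ℝ) ^ j := by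
        have e1 : (K / κ) * (κ / (8 * K)) = 1 / 8 := by field_simp
        have e2 : (K / r) * (r / (8 * K)) = 1 / 8 := by field_simp
        rw [e1, e2]

theorem BCC (hBSL : BSL_stmt) (hBCF : BCF_stmt) : BCC_stmt := by
  intro P Q E h x0 hx0 hQ hW κ r K hκ hr hr1 hK hcf
  have hK0 : 0 < K := by linarith
  have hx01 : x0 ∈ ball (0 : ℂ) 1 := ball_subset_ball (by norm_num) hx0
  have hx0n : ‖x0‖ < 1 / 2 := mem_ball_zero_iff.1 hx0
  have h01 : (0 : ℂ) ∈ ball (0 : ℂ) 1 := mem_ball_self one_pos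
  have hw : w1 P Q (x0, 0) ≠ 0 := by
    rw [((hBSL P Q E h 0 h01).2.2.1 x0 hx01).1]
    exact hW
  obtain ⟨ε, hε, hε1, Y₀, hY₀⟩ := BCC_loc P Q E h x0 hx01 hQ hw
  have htay := ((hBCF P Q E h).2 x0 hx01 hQ ε ε Y₀ hε hε hε1 hY₀).2.2
  obtain ⟨hY₀d, hY₀0, hY₀e⟩ := hY₀
  set κ' : ℝ := κ / (8 * K) with hκ'
  set r' : ℝ := r / (8 * K) with hr'
  have hκ'0 : 0 < κ' := by positivity
  have hr'0 : 0 < r' := by positivity
  have hr'1 : r' ≤ 1 := by
    rw [hr', div_le_one (by positivity)]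
    linarith
  set Reg : Set (ℂ × ℂ) := ball (0 : ℂ) κ' ×ˢ ball (0 : ℂ) r' with hReg
  have hRo : IsOpen Reg := isOpen_ball.prod isOpen_ball
  set f : ℕ × ℕ → ℂ × ℂ → ℂ := fun p x => cf P Q p.1 p.2 x0 * x.1 ^ p.1 * x.2 ^ p.2 with hf
  set u : ℕ × ℕ → ℝ := fun p => (1 / 8 : ℝ) ^ p.1 * (1 / 8 : ℝ) ^ p.2 with hu
  have hus : HasSum u (64 / 49) := BCC_hasSum_u
  have hfd : ∀ p, DifferentiableOn ℂ (f p) Reg := by
    intro p
    apply Differentiable.differentiableOn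
    exact ((differentiable_const _).mul (differentiable_fst.pow _)).mul (differentiable_snd.pow _)
  have hfb : ∀ p, ∀ x ∈ Reg, p ≠ 0 → ‖f p x‖ ≤ u p := by
    rintro ⟨i, j⟩ x hx hp
    exact BCC_term hκ hr hK (hcf i j hp) (mem_ball_zero_iff.1 hx.1) (mem_ball_zero_iff.1 hx.2)
  have hf0 : ∀ x, f 0 x = x0 := by
    intro x
    simp only [hf, Prod.fst_zero, Prod.snd_zero, pow_zero, mul_one]
    exact BCC_cf0 P Q x0
  have hu0 : u 0 = 1 := by
    simp only [hu, Prod.fst_zero, Prod.snd_zero, pow_zero, mul_one]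
  have hfb' : ∀ p, ∀ x ∈ Reg, ‖f p x‖ ≤ u p := by
    intro p x hx
    by_cases hp : p = 0
    · rw [hp, hf0, hu0]
      linarith
    · exact hfb p x hx hp
  set Y : ℂ × ℂ → ℂ := fun x => ∑' p, f p x with hY
  have hYd : DifferentiableOn ℂ Y Reg := BCC_sum f u Reg hRo hfd hus.summable hfb'
  have hfs : ∀ x ∈ Reg, Summable fun p => f p x := fun x hx =>
    Summable.of_norm_bounded hus.summable fun p => hfb' p x hx
  -- the size
  have hYx : ∀ x ∈ Reg, Y x ∈ ball x0 (1 / 3) := by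
    intro x hx
    have h1 : HasSum (fun p => f p x) (Y x) := (hfs x hx).hasSum
    have h2 : HasSum (fun p : ℕ × ℕ => if p = 0 then x0 else 0) x0 := hasSum_ite_eq 0 x0
    have h3 : HasSum (fun p : ℕ × ℕ => if p = 0 then (1 : ℝ) else 0) 1 := hasSum_ite_eq 0 1
    have h4 : ‖Y x - x0‖ ≤ 64 / 49 - 1 := by
      refine (h1.sub h2).norm_le_of_bounded (hus.sub h3) fun p => ?_
      by_cases hp : p = 0
      · rw [hp, if_pos rfl, if_pos rfl, hf0, hu0, sub_self, sub_self, norm_zero]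
      · rw [if_neg hp, if_neg hp, sub_zero, sub_zero]
        exact hfb p x hx hp
    rw [mem_ball, dist_eq_norm]
    calc ‖Y x - x0‖ ≤ 64 / 49 - 1 := h4
      _ < 1 / 3 := by norm_num
  have hY1 : ∀ x ∈ Reg, Y x ∈ ball (0 : ℂ) 1 := by
    intro x hx
    have h1 := hYx x hx
    rw [mem_ball, dist_eq_norm] at h1
    rw [mem_ball_zero_iff]
    calc ‖Y x‖ = ‖(Y x - x0) + x0‖ := by rw [sub_add_cancel]
      _ ≤ ‖Y x - x0‖ + ‖x0‖ := norm_add_le _ _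
      _ < 1 / 3 + 1 / 2 := add_lt_add h1 hx0n
      _ < 1 := by norm_num
  -- agreement with `Y₀`
  have hagree : ∀ z ∈ ball (0 : ℂ) ε, ∀ v ∈ ball (0 : ℂ) ε, z ∈ ball (0 : ℂ) κ' →
      v ∈ ball (0 : ℂ) r' → Y (z, v) = Y₀ (z, v) := by
    intro z hz v hv hz' hv'
    exact BCC_taylor (fun i j => cf P Q i j x0) hY₀d hε htay hz hv (hfs (z, v) ⟨hz', hv'⟩)
  -- the equation
  have hG := BCC_ident (G := fun x => P (Y x, x.2) - (P (x0, 0) / Q (x0, 0) + x.1) * Q (Y x, x.2))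
    (a := κ') (b := r') hε (by
      have hm : MapsTo (fun x : ℂ × ℂ => (Y x, x.2)) Reg BI := fun x hx =>
        ⟨hY1 x hx, ball_subset_ball hr'1 hx.2⟩
      have hd : DifferentiableOn ℂ (fun x : ℂ × ℂ => (Y x, x.2)) Reg :=
        hYd.prodMk differentiable_snd.differentiableOn
      have h1 : DifferentiableOn ℂ (fun x : ℂ × ℂ => P (Y x, x.2)) Reg := h.dP.comp hd hm
      have h2 : DifferentiableOn ℂ (fun x : ℂ × ℂ => Q (Y x, x.2)) Reg := h.dQ.comp hd hm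
      exact h1.sub (((differentiable_const _).add differentiable_fst).differentiableOn.mul h2))
    (by
      intro z hz v hv hz' hv'
      simp only
      rw [hagree z hz v hv hz' hv', (hY₀e z hz v hv).2, sub_self])
  refine ⟨Y, hYd, ?_, ?_⟩
  · rw [hagree 0 (mem_ball_self hε) 0 (mem_ball_self hε) (mem_ball_self hκ'0) (mem_ball_self hr'0)]
    exact hY₀0
  · intro z hz v hv
    refine ⟨⟨hY1 _ ⟨hz, hv⟩, hYx _ ⟨hz, hv⟩⟩, ?_⟩
    exact sub_eq_zero.1 (hG z hz v hv)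

end Pool.Agent.P2B
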