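import Pool.Agent.helper15.P2.SpecC
import Pool.Agent.helper49.P2.OSG

set_option autoImplicit false

open scoped ContDiff Topology ComplexConjugate ENNReal
open MeasureTheory Filter Set Metric

namespace Pool.Agent.P2B

open Pool.Agent.P2 Pool.Agent.P2I

theorem BCC_open : IsOpen BI := isOpen_ball.prod isOpen_ball

/-- the value `M (1, 0)` of the derivative of `P / Q - h` -/
theorem BCC_der (P Q : ℂ × ℂ → ℂ) (h₀ : ℂ) (p : ℂ × ℂ) (hP : DifferentiableAt ℂ P p)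
    (hQ : DifferentiableAt ℂ Q p) (hQ0 : Q p ≠ 0) :
    DifferentiableAt ℂ (fun p => P p / Q p - h₀) p ∧
      fderiv ℂ (fun p => P p / Q p - h₀) p (1, 0) = w1 P Q p / Q p ^ 2 := by
  obtain ⟨x, v⟩ := p
  have hd : DifferentiableAt ℂ (fun p => P p / Q p - h₀) (x, v) := by
    have h1 : DifferentiableAt ℂ (fun p => P p * (Q p)⁻¹ - h₀) (x, v) :=
      (hP.mul (hQ.inv hQ0)).sub_const h₀
    have e : (fun p => P p / Q p - h₀) = fun p => P p * (Q p)⁻¹ - h₀ := by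
      funext p
      rw [div_eq_mul_inv]
    rw [e]
    exact h1
  refine ⟨hd, ?_⟩
  have h2 : HasDerivAt (fun y : ℂ => (y, v)) ((1 : ℂ), (0 : ℂ)) x :=
    (hasDerivAt_id x).prodMk (hasDerivAt_const x v)
  have h3 : HasDerivAt (fun y => P (y, v) / Q (y, v) - h₀)
      (fderiv ℂ (fun p => P p / Q p - h₀) (x, v) (1, 0)) x :=
    HasFDerivAt.comp_hasDerivAt (f := fun y : ℂ => (y, v)) x hd.hasFDerivAt h2
  have h4 : HasDerivAt (fun y => P (y, v)) (fderiv ℂ P (x, v) (1, 0)) x :=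
    HasFDerivAt.comp_hasDerivAt (f := fun y : ℂ => (y, v)) x hP.hasFDerivAt h2
  have h5 : HasDerivAt (fun y => Q (y, v)) (fderiv ℂ Q (x, v) (1, 0)) x :=
    HasFDerivAt.comp_hasDerivAt (f := fun y : ℂ => (y, v)) x hQ.hasFDerivAt h2
  have h6 : HasDerivAt (fun y => P (y, v) / Q (y, v) - h₀)
      ((fderiv ℂ P (x, v) (1, 0) * Q (x, v) - P (x, v) * fderiv ℂ Q (x, v) (1, 0)) /
        Q (x, v) ^ 2) x := (h4.div h5 hQ0).sub_const h₀
  rw [h3.unique h6]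
  unfold w1
  ring

/-- a small affine band -/
theorem BCC_loc (P Q : ℂ × ℂ → ℂ) (E : ℝ) (h : ND P Q E) (x0 : ℂ) (hx0 : x0 ∈ ball (0 : ℂ) 1)
    (hQ : Q (x0, 0) ≠ 0) (hw : w1 P Q (x0, 0) ≠ 0) :
    ∃ ε : ℝ, 0 < ε ∧ ε ≤ 1 ∧ ∃ Y : ℂ × ℂ → ℂ, AB P Q (ball 0 1) ε ε x0 Y := by
  set h₀ : ℂ := P (x0, 0) / Q (x0, 0) with hh₀
  set p0 : ℂ × ℂ := (x0, 0) with hp0
  have hp0BI : p0 ∈ BI := ⟨hx0, mem_ball_self one_pos⟩
  set O : Set (ℂ × ℂ) := BI ∩ Q ⁻¹' {0}ᶜ with hOdef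
  have hO : IsOpen O := h.dQ.continuousOn.isOpen_inter_preimage BCC_open isOpen_compl_singleton
  have hp0O : p0 ∈ O := ⟨hp0BI, hQ⟩
  set q : ℂ × ℂ → ℂ := fun p => P p / Q p - h₀ with hq
  set Ψ : ℂ × ℂ → ℂ × ℂ := fun p => (q p, p.2) with hΨ
  have hqd : ∀ p ∈ O, DifferentiableAt ℂ q p := fun p hp =>
    (BCC_der P Q h₀ p (h.dP.differentiableAt (BCC_open.mem_nhds hp.1))
      (h.dQ.differentiableAt (BCC_open.mem_nhds hp.1)) hp.2).1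
  have hΨd : DifferentiableOn ℂ Ψ O := fun p hp =>
    ((hqd p hp).prodMk differentiableAt_snd).differentiableWithinAt
  have hC : ContDiffAt ℂ 1 Ψ p0 := (OSG_nat hO 1 hΨd).contDiffAt (hO.mem_nhds hp0O)
  set M : ℂ × ℂ →L[ℂ] ℂ := fderiv ℂ q p0 with hM
  have hM1 : M (1, 0) ≠ 0 := by
    rw [hM, (BCC_der P Q h₀ p0 (h.dP.differentiableAt (BCC_open.mem_nhds hp0BI))
      (h.dQ.differentiableAt (BCC_open.mem_nhds hp0BI)) hQ).2]
    exact div_ne_zero hw (pow_ne_zero 2 hQ)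
  set L : ℂ × ℂ →L[ℂ] ℂ × ℂ := M.prod (ContinuousLinearMap.snd ℂ ℂ ℂ) with hL
  have hLd : HasFDerivAt Ψ L p0 := (hqd p0 hp0O).hasFDerivAt.prodMk hasFDerivAt_snd
  have hinj : Function.Injective (L : ℂ × ℂ →ₗ[ℂ] ℂ × ℂ) := by
    rw [← LinearMap.ker_eq_bot, LinearMap.ker_eq_bot']
    rintro ⟨a, b⟩ hab
    have h1 : M (a, b) = 0 := (Prod.ext_iff.1 hab).1
    have h2 : b = 0 := (Prod.ext_iff.1 hab).2
    rw [h2] at h1 ⊢
    have h3 : M (a, 0) = a * M (1, 0) := by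
      have : ((a, 0) : ℂ × ℂ) = a • ((1 : ℂ), (0 : ℂ)) := by simp
      rw [this, map_smul, smul_eq_mul]
    rw [h3] at h1
    have h4 : a = 0 := (mul_eq_zero.1 h1).resolve_right hM1
    rw [h4]
    rfl
  have hsurj : Function.Surjective (L : ℂ × ℂ →ₗ[ℂ] ℂ × ℂ) :=
    LinearMap.injective_iff_surjective.1 hinj
  let L' : (ℂ × ℂ) ≃L[ℂ] (ℂ × ℂ) := ContinuousLinearEquiv.ofBijective L
    (LinearMap.ker_eq_bot.2 hinj) (LinearMap.range_eq_top.2 hsurj)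
  have hL' : HasFDerivAt Ψ (L' : ℂ × ℂ →L[ℂ] ℂ × ℂ) p0 := by
    have : (L' : ℂ × ℂ →L[ℂ] ℂ × ℂ) = L := ContinuousLinearEquiv.coe_ofBijective _ _ _
    rw [this]
    exact hLd
  have hΨp0 : Ψ p0 = (0, 0) := by
    rw [hΨ, hq]
    simp only [hp0, hh₀, sub_self]
  set Λ := hC.localInverse hL' one_ne_zero with hΛ
  have hΛ0 : Λ (0, 0) = p0 := by
    rw [← hΨp0]
    exact hC.localInverse_apply_image hL' one_ne_zero
  have hΛC : ContDiffAt ℂ 1 Λ (0, 0) := by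
    rw [← hΨp0]
    exact hC.to_localInverse hL' one_ne_zero
  have hΛd : ∀ᶠ y in 𝓝 ((0 : ℂ), (0 : ℂ)), DifferentiableAt ℂ Λ y := by
    filter_upwards [hΛC.eventually (by decide)] with y hy
    exact hy.differentiableAt one_ne_zero
  have hΛr : ∀ᶠ y in 𝓝 ((0 : ℂ), (0 : ℂ)), Ψ (Λ y) = y := by
    rw [← hΨp0]
    exact (hC.hasStrictFDerivAt' hL' one_ne_zero).eventually_right_inverse
  have hΛO : ∀ᶠ y in 𝓝 ((0 : ℂ), (0 : ℂ)), Λ y ∈ O := by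
    have h1 : ContinuousAt Λ (0, 0) := hΛC.continuousAt
    exact h1.eventually_mem (by rw [hΛ0]; exact hO.mem_nhds hp0O)
  obtain ⟨ε, hε, hball⟩ := Metric.eventually_nhds_iff_ball.1 (hΛd.and (hΛr.and hΛO))
  have hin : ∀ t ∈ ball (0 : ℂ) (min ε 1), ∀ v ∈ ball (0 : ℂ) (min ε 1),
      (t, v) ∈ ball ((0 : ℂ), (0 : ℂ)) ε := by
    intro t ht v hv
    rw [← ball_prod_same]
    exact ⟨ball_subset_ball (min_le_left _ _) ht, ball_subset_ball (min_le_left _ _) hv⟩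
  refine ⟨min ε 1, lt_min hε one_pos, min_le_right _ _, fun y => (Λ y).1, ?_, ?_, ?_⟩
  · rintro ⟨t, v⟩ ⟨ht, hv⟩
    have h1 := (hball _ (hin t ht v hv)).1
    exact (h1.fst).differentiableWithinAt
  · simp only [hΛ0, hp0]
  · intro t ht v hv
    obtain ⟨-, h2, h3⟩ := hball _ (hin t ht v hv)
    have h4 : (Λ (t, v)).2 = v := (Prod.ext_iff.1 h2).2
    have h5 : P (Λ (t, v)) / Q (Λ (t, v)) - h₀ = t := (Prod.ext_iff.1 h2).1
    have h6 : Λ (t, v) = ((Λ (t, v)).1, v) := Prod.ext rfl h4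
    refine ⟨h3.1.1, ?_⟩
    rw [← h6]
    have h7 : P (Λ (t, v)) / Q (Λ (t, v)) = h₀ + t :=
      (sub_eq_iff_eq_add.1 h5).trans (add_comm _ _)
    rw [← h7]
    rw [div_mul_cancel₀]
    exact h3.2

end Pool.Agent.P2B
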