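import Pool.Agent.helper29.P2.IX1
import Pool.Agent.helper30.P2.IS4

set_option autoImplicit false

open scoped ContDiff Topology ComplexConjugate
open MeasureTheory Filter Set Metric

namespace Pool.Agent.P2N

open Pool.Agent.P2 Pool.Agent.P2I

theorem NSM_det (A : ℂ →L[ℂ] ℂ) : (A.restrictScalars ℝ).det = Complex.normSq (A 1) := by
  have h1 : (A.restrictScalars ℝ).det = LinearMap.det ((A : ℂ →ₗ[ℂ] ℂ).restrictScalars ℝ) := rfl
  rw [h1, LinearMap.det_restrictScalars, Algebra.norm_complex_apply, LinearMap.det_ring]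
  rfl

theorem NSM_cov (G : ℂ → ℂ) (Ω : Set ℂ) (hΩ : IsOpen Ω) (hG : DifferentiableOn ℂ G Ω)
    (hinj : InjOn G Ω) (u : ℂ → ℝ) :
    ∫ z in G '' Ω, u z = ∫ w in Ω, Complex.normSq (deriv G w) * u (G w) := by
  have hf : ∀ x ∈ Ω, HasFDerivWithinAt G ((fderiv ℂ G x).restrictScalars ℝ) Ω x := by
    intro x hx
    exact ((hG.differentiableAt (hΩ.mem_nhds hx)).hasFDerivAt.restrictScalars ℝ).hasFDerivWithinAt
  rw [integral_image_eq_integral_abs_det_fderiv_smul volume hΩ.measurableSet hf hinj]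
  refine setIntegral_congr_fun hΩ.measurableSet fun w _ => ?_
  rw [NSM_det, fderiv_apply_one_eq_deriv, abs_of_nonneg (Complex.normSq_nonneg _), smul_eq_mul]

/-- the total mass of `sph` on `ball 0 (9/10)` -/
theorem NSM_mass (hCH1 : CH1_stmt) (hIB1 : IB1_stmt) : ∃ C : ℝ, 0 < C ∧ ∀ (P Q : ℂ → ℂ) (E : ℝ), P2I.Adm P Q → 1 ≤ E →
    (∀ z ∈ ball (0 : ℂ) 1, |Up P Q z| ≤ E) →
    IntegrableOn (sph P Q) (ball 0 (9 / 10)) ∧ ∫ z in ball (0 : ℂ) (9 / 10), sph P Q z ≤ C * E := by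
  obtain ⟨θb, hθ1, hθ2⟩ : ∃ f : ContDiffBump (0 : ℂ), f.rIn = 9 / 10 ∧ f.rOut = 19 / 20 :=
    ⟨⟨9 / 10, 19 / 20, by norm_num, by norm_num⟩, rfl, rfl⟩
  obtain ⟨θ, hθd⟩ : ∃ θ : ℂ → ℝ, θ = θb := ⟨_, rfl⟩
  have hθs : ContDiff ℝ ∞ θ := by
    rw [hθd]
    exact θb.contDiff
  have hθc : HasCompactSupport θ := by
    rw [hθd]
    exact θb.hasCompactSupport
  have hθt : tsupport θ ⊆ ball 0 1 := by
    rw [hθd, θb.tsupport_eq, hθ2]
    exact closedBall_subset_ball (by norm_num)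
  have hθ0 : ∀ t, 0 ≤ θ t := by
    intro t
    rw [hθd]
    exact θb.nonneg
  have hθone : ∀ t ∈ ball (0 : ℂ) (9 / 10), θ t = 1 := by
    intro t ht
    rw [hθd]
    apply θb.one_of_mem_closedBall
    rw [hθ1]
    exact ball_subset_closedBall ht
  have hlc : Continuous (lap θ) := IX1_lap_cont θ hθs
  have hls : HasCompactSupport (lap θ) := by
    apply HasCompactSupport.intro hθc
    intro z hz
    exact IX1_lap_zero θ z hz
  have hlapθ : Integrable (fun t => |lap θ t|) := (hlc.integrable_of_hasCompactSupport hls).abs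
  have hC1 : 0 ≤ ∫ t, |lap θ t| := integral_nonneg (fun t => abs_nonneg _)
  refine ⟨2 * (∫ t, |lap θ t|) + 1, by linarith, ?_⟩
  intro P Q E hA hE hU
  obtain ⟨hUs, hUl⟩ := hCH1.2 (ball 0 1) P Q isOpen_ball hA.1 hA.2.1 hA.2.2
  have hI : Integrable (fun z => θ z * sph P Q z) := IX1_int P Q hA θ hθs.continuous hθc hθt
  have hIon : IntegrableOn (sph P Q) (ball 0 (9 / 10)) := by
    have h1 : IntegrableOn (fun z => θ z * sph P Q z) (ball 0 (9 / 10)) := hI.integrableOn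
    refine h1.congr_fun ?_ measurableSet_ball
    intro z hz
    show θ z * sph P Q z = sph P Q z
    rw [hθone z hz, one_mul]
  refine ⟨hIon, ?_⟩
  have h1 : ∫ z in ball (0 : ℂ) (9 / 10), sph P Q z = ∫ z in ball (0 : ℂ) (9 / 10), θ z * sph P Q z := by
    refine setIntegral_congr_fun measurableSet_ball fun z hz => ?_
    show sph P Q z = θ z * sph P Q z
    rw [hθone z hz, one_mul]
  have h2 : ∫ z in ball (0 : ℂ) (9 / 10), θ z * sph P Q z ≤ ∫ z, θ z * sph P Q z := by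
    apply setIntegral_le_integral hI
    filter_upwards with z
    exact mul_nonneg (hθ0 z) (IX1_sph_nonneg P Q z)
  have h3 : ∫ z, θ z * sph P Q z = 2 * ∫ z, θ z * lap (Up P Q) z := by
    rw [← integral_const_mul]
    congr 1
    funext z
    by_cases hz : z ∈ ball (0 : ℂ) 1
    · rw [hUl z hz]
      ring
    · have h4 : θ z = 0 := by
        by_contra h
        exact hz (hθt (subset_closure h))
      rw [h4]
      ring
  have h4 : ∫ z, θ z * lap (Up P Q) z = ∫ z, lap θ z * Up P Q z :=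
    hIB1 (ball 0 1) θ (Up P Q) isOpen_ball hθs hθc hθt hUs
  have h5 : ∫ z, lap θ z * Up P Q z ≤ E * ∫ t, |lap θ t| := by
    have hb : ∀ᵐ t : ℂ, ‖lap θ t * Up P Q t‖ ≤ E * |lap θ t| := by
      filter_upwards with t
      rw [Real.norm_eq_abs, abs_mul]
      by_cases ht : t ∈ ball (0 : ℂ) 1
      · rw [mul_comm]
        exact mul_le_mul_of_nonneg_right (hU t ht) (abs_nonneg _)
      · have h2 : lap θ t = 0 := IX1_lap_zero θ t (fun h => ht (hθt h))
        rw [h2]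
        simp
    have h3 := norm_integral_le_of_norm_le (hlapθ.const_mul E) hb
    rw [Real.norm_eq_abs, integral_const_mul] at h3
    exact (le_abs_self _).trans h3
  rw [h1]
  refine h2.trans ?_
  rw [h3, h4]
  nlinarith

/-- the mass of `sph` on one island -/
theorem NSM_one (hBRA : BRA_stmt) {P Q : ℂ → ℂ} (hA : P2I.Adm P Q) {r : ℝ} (hr : 0 < r) (hr8 : r ≤ 1 / 8)
    {y : ℂ} (hy : y ∈ ball (0 : ℂ) 1) {Y : ℂ → ℂ} (hY : Br P Q (ball 0 1) y (r / 2) Y) :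
    r ^ 2 / 2 ≤ ∫ z in Y '' ball 0 (r / 2), sph P Q z := by
  obtain ⟨-, hinj, h3⟩ := (hBRA P Q hA y hy).2.1 (r / 2) Y (by positivity) hY
  rw [NSM_cov Y (ball 0 (r / 2)) isOpen_ball hY.1 hinj]
  have hlow : ∀ w ∈ ball (0 : ℂ) (r / 2), (4 : ℝ) / 5 ≤ Complex.normSq (deriv Y w) * sph P Q (Y w) := by
    intro w hw
    have h4 := (h3 w hw).2.2.2
    rw [mem_ball_zero_iff] at hw
    have h5 : Complex.normSq w ≤ 1 / 256 := by
      rw [Complex.normSq_eq_norm_sq]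
      have h6 : ‖w‖ ≤ 1 / 16 := by linarith
      calc ‖w‖ ^ 2 ≤ (1 / 16) ^ 2 := pow_le_pow_left₀ (norm_nonneg _) h6 2
        _ = 1 / 256 := by norm_num
    have h6 : 0 ≤ Complex.normSq w := Complex.normSq_nonneg w
    have h7 : (1 + Complex.normSq w) ^ 2 ≤ 5 / 4 := by nlinarith
    have h8 : 0 ≤ Complex.normSq (deriv Y w) * sph P Q (Y w) :=
      mul_nonneg (Complex.normSq_nonneg _) (IX1_sph_nonneg P Q _)
    have h9 : 1 ≤ Complex.normSq (deriv Y w) * sph P Q (Y w) * (5 / 4) := by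
      rw [← h4]
      exact mul_le_mul_of_nonneg_left h7 h8
    linarith
  have hup : ∀ w ∈ ball (0 : ℂ) (r / 2), Complex.normSq (deriv Y w) * sph P Q (Y w) ≤ 1 := by
    intro w hw
    have h4 := (h3 w hw).2.2.2
    have h6 : 0 ≤ Complex.normSq w := Complex.normSq_nonneg w
    have h8 : 0 ≤ Complex.normSq (deriv Y w) * sph P Q (Y w) :=
      mul_nonneg (Complex.normSq_nonneg _) (IX1_sph_nonneg P Q _)
    have h7 : 1 ≤ (1 + Complex.normSq w) ^ 2 := by nlinarith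
    calc Complex.normSq (deriv Y w) * sph P Q (Y w) = Complex.normSq (deriv Y w) * sph P Q (Y w) * 1 := (mul_one _).symm
      _ ≤ Complex.normSq (deriv Y w) * sph P Q (Y w) * (1 + Complex.normSq w) ^ 2 := mul_le_mul_of_nonneg_left h7 h8
      _ = 1 := h4
  have hvol : (volume (ball (0 : ℂ) (r / 2))).toReal = Real.pi * (r / 2) ^ 2 := by
    rw [Complex.volume_ball, ENNReal.toReal_mul, ENNReal.toReal_pow, ENNReal.toReal_ofReal (by positivity),
      ENNReal.coe_toReal, NNReal.coe_real_pi]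
    ring
  have hcont : ContinuousOn (fun w => Complex.normSq (deriv Y w) * sph P Q (Y w)) (ball 0 (r / 2)) := by
    intro w hw
    apply ContinuousAt.continuousWithinAt
    have h1 : ContinuousAt (deriv Y) w :=
      ((hY.1.deriv isOpen_ball).continuousOn).continuousAt (isOpen_ball.mem_nhds hw)
    have h2 : ContinuousAt Y w := hY.1.continuousOn.continuousAt (isOpen_ball.mem_nhds hw)
    have h4 : ContinuousAt (sph P Q) (Y w) := IX1_sph_cont P Q hA (Y w) ((hY.2.2 w hw).1)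
    have h5 : ContinuousAt (fun w => sph P Q (Y w)) w := ContinuousAt.comp h4 h2
    exact (Complex.continuous_normSq.continuousAt.comp h1).mul h5
  have hint : IntegrableOn (fun w => Complex.normSq (deriv Y w) * sph P Q (Y w)) (ball 0 (r / 2)) := by
    have hc : IntegrableOn (fun _ : ℂ => (1 : ℝ)) (ball (0 : ℂ) (r / 2)) :=
      integrableOn_const (measure_ball_lt_top.ne)
    refine Integrable.mono' hc (hcont.aestronglyMeasurable measurableSet_ball) ?_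
    refine (ae_restrict_iff' measurableSet_ball).mpr (Filter.Eventually.of_forall fun w hw => ?_)
    rw [Real.norm_eq_abs, abs_of_nonneg (mul_nonneg (Complex.normSq_nonneg _) (IX1_sph_nonneg P Q _))]
    exact hup w hw
  have h10 : ∫ _ in ball (0 : ℂ) (r / 2), (4 : ℝ) / 5 ≤
      ∫ w in ball (0 : ℂ) (r / 2), Complex.normSq (deriv Y w) * sph P Q (Y w) := by
    refine setIntegral_mono_on (integrableOn_const (measure_ball_lt_top.ne)) hint measurableSet_ball ?_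
    intro w hw
    exact hlow w hw
  refine le_trans ?_ h10
  rw [setIntegral_const, smul_eq_mul, Measure.real, hvol]
  have hpi := Real.pi_gt_three
  nlinarith [sq_nonneg r, mul_pos hr hr]

theorem NSM_mono {P Q : ℂ → ℂ} {S S' : Set ℂ} {z : ℂ} {τ : ℝ} {X : ℂ → ℂ} (h : S ⊆ S')
    (hX : Br P Q S z τ X) : Br P Q S' z τ X :=
  ⟨hX.1, hX.2.1, fun t ht => ⟨h (hX.2.2 t ht).1, (hX.2.2 t ht).2⟩⟩

/-- a small island containing `x` is inside the island of `x` -/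
theorem NSM_sub (hBRA : BRA_stmt) (hBRS : BRS_stmt) {P Q : ℂ → ℂ} (hA : P2I.Adm P Q) {r : ℝ} (hr : 0 < r)
    (hr8 : r ≤ 1 / 8) {y x : ℂ} (hy : y ∈ ball (0 : ℂ) 1) (hx : x ∈ ball (0 : ℂ) 1) {Y X : ℂ → ℂ}
    (hY : Br P Q (ball 0 1) y (r / 2) Y) (hX : Br P Q (ball 0 1) x r X) {s₀ : ℂ} (hs₀ : s₀ ∈ ball (0 : ℂ) (r / 32))
    (he : Y s₀ = x) : Y '' ball 0 (r / 32) ⊆ X '' ball 0 (r / 2) := by
  have hs₀' : s₀ ∈ ball (0 : ℂ) (r / 2) := ball_subset_ball (by linarith) hs₀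
  obtain ⟨l, hl1, hl⟩ := hBRS P Q hA y hy (ball 0 1) (r / 2) Y (le_refl _) (by linarith) hY s₀ hs₀'
  rw [mem_ball_zero_iff] at hs₀
  have hll : l * conj l = 1 := by
    rw [Complex.mul_conj, Complex.normSq_eq_norm_sq, hl1]
    norm_num
  have hBr := hl (r / 4) (by
    intro s hs
    rw [mem_ball_zero_iff] at hs
    have h1 : ‖s + s₀‖ < 9 * r / 32 := by
      have := norm_add_le s s₀
      linarith
    have h2 : (9 : ℝ) / 10 ≤ ‖1 - conj s₀ * s‖ := by
      have h3 := norm_sub_norm_le (1 : ℂ) (conj s₀ * s)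
      rw [norm_one, norm_mul, RCLike.norm_conj] at h3
      have h4 : ‖s₀‖ * ‖s‖ ≤ 1 / 10 * 1 := by
        apply mul_le_mul _ _ (norm_nonneg _) (by norm_num) <;> linarith
      linarith
    have h3 : r / 2 * (9 / 10) ≤ r / 2 * ‖1 - conj s₀ * s‖ := mul_le_mul_of_nonneg_left h2 (by positivity)
    linarith)
  rw [he] at hBr
  have huniq := (hBRA P Q hA x hx).2.2 (r / 4) r _ X hBr hX
  rintro w ⟨u, hu, rfl⟩
  rw [mem_ball_zero_iff] at hu
  have hne1 : (9 : ℝ) / 10 ≤ ‖1 + conj s₀ * u‖ := by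
    have h3 := norm_sub_norm_le (1 : ℂ) (-(conj s₀ * u))
    rw [norm_one, norm_neg, norm_mul, RCLike.norm_conj, sub_neg_eq_add] at h3
    have h4 : ‖s₀‖ * ‖u‖ ≤ 1 / 10 * 1 := by
      apply mul_le_mul _ _ (norm_nonneg _) (by norm_num) <;> linarith
    linarith
  have hne : 1 + conj s₀ * u ≠ 0 := by
    intro h
    rw [h, norm_zero] at hne1
    linarith
  obtain ⟨v, hv⟩ : ∃ v : ℂ, v = (u - s₀) / (1 + conj s₀ * u) := ⟨_, rfl⟩
  have hvn : ‖v‖ < r / 4 := by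
    rw [hv, norm_div, div_lt_iff₀ (by linarith)]
    have h1 : ‖u - s₀‖ < r / 16 := by
      have := norm_sub_le u s₀
      linarith
    have h2 : r / 4 * (9 / 10) ≤ r / 4 * ‖1 + conj s₀ * u‖ := mul_le_mul_of_nonneg_left hne1 (by positivity)
    linarith
  have hsm : conj l * v ∈ ball (0 : ℂ) (r / 4) := by
    rw [mem_ball_zero_iff, norm_mul, RCLike.norm_conj, hl1, one_mul]
    exact hvn
  have hsm2 : conj l * v ∈ ball (0 : ℂ) r := ball_subset_ball (by linarith) hsm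
  have h1 := huniq (conj l * v) hsm hsm2
  refine ⟨conj l * v, ball_subset_ball (by linarith) hsm, ?_⟩
  rw [← h1]
  show Y ((l * (conj l * v) + s₀) / (1 - conj s₀ * (l * (conj l * v)))) = Y u
  rw [← mul_assoc, hll, one_mul]
  congr 1
  have h5 : (1 : ℂ) + conj s₀ * s₀ ≠ 0 := by
    intro h
    have h6 : ‖(1 : ℂ)‖ = ‖conj s₀ * s₀‖ := by
      have : (1 : ℂ) = -(conj s₀ * s₀) := by linear_combination h
      calc ‖(1 : ℂ)‖ = ‖-(conj s₀ * s₀)‖ := by rw [← this]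
        _ = ‖conj s₀ * s₀‖ := norm_neg _
    rw [norm_one, norm_mul, RCLike.norm_conj] at h6
    have h7 : ‖s₀‖ * ‖s₀‖ ≤ 1 / 64 * (1 / 64) := by
      apply mul_le_mul _ _ (norm_nonneg _) (by norm_num) <;> linarith
    linarith
  have e2 : v + s₀ = u * (1 + conj s₀ * s₀) / (1 + conj s₀ * u) := by
    rw [hv, eq_div_iff hne, add_mul, div_mul_cancel₀ _ hne]
    ring
  have e3 : 1 - conj s₀ * v = (1 + conj s₀ * s₀) / (1 + conj s₀ * u) := by
    rw [hv]
    field_simp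
    ring
  rw [e2, e3, div_div_div_cancel_right₀ hne, mul_div_assoc, div_self h5, mul_one]

/-- the number of islands -/
theorem NSM_count (hBRA : BRA_stmt) {P Q : ℂ → ℂ} (hA : P2I.Adm P Q) {r M : ℝ} (hr : 0 < r) (hr8 : r ≤ 1 / 8)
    (hI : IntegrableOn (sph P Q) (ball 0 (9 / 10))) (hM : ∫ z in ball (0 : ℂ) (9 / 10), sph P Q z ≤ M)
    (Y : ℂ → ℂ → ℂ) (S : Finset ℂ) (hS : ∀ y ∈ S, y ∈ ball (0 : ℂ) (9 / 10) ∧ Br P Q (ball 0 (9 / 10)) y (r / 2) (Y y))
    (hd : ∀ y ∈ S, ∀ y' ∈ S, y ≠ y' → ∀ s ∈ ball (0 : ℂ) (r / 2), ∀ s' ∈ ball (0 : ℂ) (r / 2), Y y s ≠ Y y' s') :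
    (S.card : ℝ) * (r ^ 2 / 2) ≤ M := by
  have h910 : ball (0 : ℂ) (9 / 10) ⊆ ball 0 1 := ball_subset_ball (by norm_num)
  have hsub : ∀ y ∈ S, Y y '' ball 0 (r / 2) ⊆ ball 0 (9 / 10) := by
    rintro y hy w ⟨s, hs, rfl⟩
    exact ((hS y hy).2.2.2 s hs).1
  have hB1 : ∀ y ∈ S, Br P Q (ball 0 1) y (r / 2) (Y y) := fun y hy => NSM_mono h910 (hS y hy).2
  have hmeas : ∀ y ∈ S, MeasurableSet (Y y '' ball 0 (r / 2)) := by
    intro y hy
    obtain ⟨-, hinj, -⟩ := (hBRA P Q hA y (h910 (hS y hy).1)).2.1 (r / 2) (Y y) (by positivity) (hB1 y hy)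
    exact measurableSet_ball.image_of_continuousOn_injOn (hS y hy).2.1.continuousOn hinj
  have hdisj : (S : Set ℂ).PairwiseDisjoint (fun y => Y y '' ball 0 (r / 2)) := by
    intro y hy y' hy' hne
    rw [Function.onFun, Set.disjoint_left]
    rintro w ⟨s, hs, hw⟩ ⟨s', hs', hw'⟩
    exact hd y hy y' hy' hne s hs s' hs' (hw.trans hw'.symm)
  have h1 : ∫ z in ⋃ y ∈ S, Y y '' ball 0 (r / 2), sph P Q z = ∑ y ∈ S, ∫ z in Y y '' ball 0 (r / 2), sph P Q z :=
    integral_biUnion_finset S hmeas hdisj (fun y hy => hI.mono_set (hsub y hy))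
  have h2 : ∫ z in ⋃ y ∈ S, Y y '' ball 0 (r / 2), sph P Q z ≤ ∫ z in ball (0 : ℂ) (9 / 10), sph P Q z := by
    apply setIntegral_mono_set hI
    · filter_upwards with z
      exact IX1_sph_nonneg P Q z
    · exact (Set.iUnion₂_subset hsub).eventuallyLE
  have h3 : ∑ y ∈ S, r ^ 2 / 2 ≤ ∑ y ∈ S, ∫ z in Y y '' ball 0 (r / 2), sph P Q z :=
    Finset.sum_le_sum fun y hy => NSM_one hBRA hA hr hr8 (h910 (hS y hy).1) (hB1 y hy)
  rw [Finset.sum_const, nsmul_eq_mul] at h3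
  linarith

theorem NSM (hCH1 : CH1_stmt) (hIB1 : IB1_stmt) (hBRA : BRA_stmt) (hBRS : BRS_stmt) (hNCV : NCV_stmt) : NSM_stmt := by
  classical
  obtain ⟨C₁, hC₁, hmass⟩ := NSM_mass hCH1 hIB1
  intro r hr hr8
  obtain ⟨q, hq⟩ := hNCV r hr hr8
  refine ⟨q * (C₁ / (r ^ 2 / 2)) + 1, by positivity, ?_⟩
  intro P Q V E δ N hA hE hU hV hlap hδ hN hX
  obtain ⟨hI, hM⟩ := hmass P Q E hA hE hU
  obtain ⟨T, Xb, hT1, hT2, hT3⟩ := hq P Q N hA hN (fun x hx => by
    obtain ⟨X, hX1, -⟩ := hX x hx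
    exact ⟨X, hX1⟩)
  have h910 : ball (0 : ℂ) (9 / 10) ⊆ ball 0 1 := ball_subset_ball (by norm_num)
  have h45 : ball (0 : ℂ) (4 / 5) ⊆ ball 0 1 := ball_subset_ball (by norm_num)
  have hr2 : 0 < r ^ 2 / 2 := by positivity
  -- the sets `T j` are finite
  have hcount : ∀ j, ∀ S : Finset ℂ, (S : Set ℂ) ⊆ T j → (S.card : ℝ) * (r ^ 2 / 2) ≤ C₁ * E := by
    intro j S hS
    refine NSM_count hBRA hA hr hr8 hI hM Xb S (fun y hy => (hT1 j).2 y (hS hy)) ?_
    intro y hy y' hy'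
    exact hT2 j y (hS hy) y' (hS hy')
  have hfin : ∀ j, (T j).Finite := by
    intro j
    by_contra hinf
    obtain ⟨S, hS, hcard⟩ := Set.Infinite.exists_subset_card_eq hinf (⌊C₁ * E / (r ^ 2 / 2)⌋₊ + 1)
    have h5 := hcount j S hS
    rw [hcard] at h5
    have h6 := Nat.lt_floor_add_one (C₁ * E / (r ^ 2 / 2))
    rw [div_lt_iff₀ hr2] at h6
    push_cast at h5
    linarith
  -- the good points
  obtain ⟨G, hG⟩ : ∃ G : Fin q → Finset ℂ, ∀ j y, y ∈ G j ↔ y ∈ T j ∧ ∃ x ∈ N, ∃ s ∈ ball (0 : ℂ) (r / 32), Xb y s = x := by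
    refine ⟨fun j => (hfin j).toFinset.filter (fun y => ∃ x ∈ N, ∃ s ∈ ball (0 : ℂ) (r / 32), Xb y s = x), ?_⟩
    intro j y
    rw [Finset.mem_filter, Set.Finite.mem_toFinset]
  have hGcard : ∀ j, ((G j).card : ℝ) ≤ C₁ * E / (r ^ 2 / 2) := by
    intro j
    rw [le_div_iff₀ hr2]
    exact hcount j (G j) (fun y hy => ((hG j y).mp hy).1)
  have hBr1 : ∀ j, ∀ y ∈ G j, y ∈ ball (0 : ℂ) 1 ∧ Br P Q (ball 0 1) y (r / 2) (Xb y) := by
    intro j y hy
    have h1 := (hT1 j).2 y ((hG j y).mp hy).1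
    exact ⟨h910 h1.1, NSM_mono h910 h1.2⟩
  have hsub : ∀ j, ∀ y ∈ G j, Xb y '' ball 0 (r / 32) ⊆ ball 0 (9 / 10) := by
    rintro j y hy w ⟨s, hs, rfl⟩
    have h1 := (hT1 j).2 y ((hG j y).mp hy).1
    exact (h1.2.2.2 s (ball_subset_ball (by linarith) hs)).1
  have hmeas : ∀ j, ∀ y ∈ G j, MeasurableSet (Xb y '' ball 0 (r / 32)) := by
    intro j y hy
    obtain ⟨h1, h2⟩ := hBr1 j y hy
    obtain ⟨-, hinj, -⟩ := (hBRA P Q hA y h1).2.1 (r / 2) (Xb y) (by positivity) h2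
    have h3 : ball (0 : ℂ) (r / 32) ⊆ ball 0 (r / 2) := ball_subset_ball (by linarith)
    exact measurableSet_ball.image_of_continuousOn_injOn (h2.1.continuousOn.mono h3) (hinj.mono h3)
  have hfc : ContinuousOn (lap V) (ball 0 1) := fun z hz =>
    (IS4_lapcont V z (hV.contDiffAt (isOpen_ball.mem_nhds hz))).continuousWithinAt
  -- the mass of one island
  have hone : ∀ j, ∀ y ∈ G j, ∫⁻ z in Xb y '' ball 0 (r / 32), ENNReal.ofReal (lap V z) ≤ ENNReal.ofReal δ := by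
    intro j y hy
    obtain ⟨h1, h2⟩ := hBr1 j y hy
    obtain ⟨-, x, hxN, s, hs, hsx⟩ := (hG j y).mp hy
    obtain ⟨X, hX1, hX2⟩ := hX x hxN
    have hX1' : Br P Q (ball 0 1) x r X := NSM_mono Set.inter_subset_left hX1
    have h3 := NSM_sub hBRA hBRS hA hr hr8 h1 (h45 (hN hxN)) h2 hX1' hs hsx
    have hsubr : closedBall (0 : ℂ) (r / 2) ⊆ ball 0 r := closedBall_subset_ball (by linarith)
    have hK : IsCompact (X '' closedBall 0 (r / 2)) :=
      (isCompact_closedBall (0 : ℂ) (r / 2)).image_of_continuousOn (hX1'.1.continuousOn.mono hsubr)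
    have hKb : X '' closedBall 0 (r / 2) ⊆ ball 0 1 := by
      rintro w ⟨s, hs, rfl⟩
      exact (hX1'.2.2 s (hsubr hs)).1
    refine (lintegral_mono_set h3).trans ?_
    rw [IS4_lint hfc hlap hK hKb (Set.image_mono ball_subset_closedBall)]
    exact ENNReal.ofReal_le_ofReal hX2
  obtain ⟨Bd, hBd⟩ : ∃ Bd : Set ℂ, Bd = ⋃ j ∈ (Finset.univ : Finset (Fin q)), ⋃ y ∈ G j, Xb y '' ball 0 (r / 32) := ⟨_, rfl⟩
  have hBd9 : Bd ⊆ ball 0 (9 / 10) := by
    rw [hBd]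
    exact Set.iUnion₂_subset fun j _ => Set.iUnion₂_subset fun y hy => hsub j y hy
  refine ⟨Bd, ?_, hBd9, ?_, ?_⟩
  · rw [hBd]
    exact Finset.measurableSet_biUnion _ fun j _ => Finset.measurableSet_biUnion _ fun y hy => hmeas j y hy
  · intro x hx
    obtain ⟨j, y, hy, s, hs, hsx⟩ := hT3 x hx
    rw [hBd, Set.mem_iUnion₂]
    refine ⟨j, Finset.mem_univ j, ?_⟩
    rw [Set.mem_iUnion₂]
    exact ⟨y, (hG j y).mpr ⟨hy, x, hx, s, hs, hsx⟩, s, hs, hsx⟩
  · have hsum : ∫⁻ z in Bd, ENNReal.ofReal (lap V z) ≤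
        ENNReal.ofReal (q * (C₁ * E / (r ^ 2 / 2) * δ)) := by
      rw [hBd]
      refine (IS4_union Finset.univ _ _).trans ?_
      have h5 : ∀ j ∈ (Finset.univ : Finset (Fin q)), ∫⁻ z in ⋃ y ∈ G j, Xb y '' ball 0 (r / 32), ENNReal.ofReal (lap V z) ≤
          ENNReal.ofReal (C₁ * E / (r ^ 2 / 2) * δ) := by
        intro j _
        refine (IS4_union (G j) _ _).trans ?_
        refine (Finset.sum_le_sum fun y hy => hone j y hy).trans ?_
        rw [Finset.sum_const, nsmul_eq_mul, ← ENNReal.ofReal_natCast, ← ENNReal.ofReal_mul (Nat.cast_nonneg _)]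
        apply ENNReal.ofReal_le_ofReal
        exact mul_le_mul_of_nonneg_right (hGcard j) hδ
      refine (Finset.sum_le_sum h5).trans ?_
      rw [Finset.sum_const, nsmul_eq_mul, ← ENNReal.ofReal_natCast, ← ENNReal.ofReal_mul (Nat.cast_nonneg _),
        Finset.card_univ, Fintype.card_fin]
    have hcb : closedBall (0 : ℂ) (9 / 10) ⊆ ball 0 1 := closedBall_subset_ball (by norm_num)
    rw [IS4_lint hfc hlap (isCompact_closedBall (0 : ℂ) (9 / 10)) hcb (hBd9.trans ball_subset_closedBall)] at hsum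
    have h5 := (ENNReal.ofReal_le_ofReal_iff (by positivity)).mp hsum
    refine h5.trans ?_
    have h6 : (q : ℝ) * (C₁ * E / (r ^ 2 / 2) * δ) = q * (C₁ / (r ^ 2 / 2)) * E * δ := by
      ring
    rw [h6]
    have h7 : 0 ≤ E * δ := mul_nonneg (by linarith) hδ
    nlinarith

end Pool.Agent.P2N
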