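import Pool.Agent.helper56.P2.SpecU

set_option autoImplicit false

namespace Pool.Agent.P2U

open MeasureTheory Set Filter Topology Metric Complex
open scoped ENNReal ContDiff

theorem UTWO_an {P : ℂ × ℂ → ℂ} {s : Set (ℂ × ℂ)} (hP : AnalyticOnNhd ℂ P s) :
    AnalyticOnNhd ℂ (dx P) s := fun p hp =>
  ((ContinuousLinearMap.apply ℂ ℂ ((1 : ℂ), (0 : ℂ))).analyticAt _).comp (hP.fderiv p hp)

theorem UTWO_hd {P : ℂ × ℂ → ℂ} {x w : ℂ} (hP : AnalyticAt ℂ P (x, w)) :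
    HasDerivAt (fun x => P (x, w)) (dx P (x, w)) x := by
  have h1 : HasFDerivAt P (fderiv ℂ P (x, w)) (x, w) := hP.differentiableAt.hasFDerivAt
  have h2 : HasDerivAt (fun x : ℂ => (x, w)) ((1 : ℂ), (0 : ℂ)) x :=
    (hasDerivAt_id x).prodMk (hasDerivAt_const x w)
  exact HasFDerivAt.comp_hasDerivAt x h1 h2

/-- the derivatives of `G (x, w) = P (x, w) a - Q (x, w) b` in `x` -/
theorem UTWO_dd {P Q : ℂ × ℂ → ℂ} {r : ℝ} (hP : AnalyticOnNhd ℂ P (TB 2 r))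
    (hQ : AnalyticOnNhd ℂ Q (TB 2 r)) (a b : ℂ) {x w : ℂ} (hx : ‖x‖ < 2) (hw : ‖w‖ < r) :
    HasDerivAt (fun x => P (x, w) * a - Q (x, w) * b) (dx P (x, w) * a - dx Q (x, w) * b) x ∧
    deriv (deriv (fun x => P (x, w) * a - Q (x, w) * b)) x =
      dx (dx P) (x, w) * a - dx (dx Q) (x, w) * b := by
  have h1 : ∀ y : ℂ, ‖y‖ < 2 → HasDerivAt (fun x => P (x, w) * a - Q (x, w) * b)
      (dx P (y, w) * a - dx Q (y, w) * b) y := by
    intro y hy
    exact ((UTWO_hd (hP (y, w) ⟨hy, hw⟩)).mul_const a).sub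
      ((UTWO_hd (hQ (y, w) ⟨hy, hw⟩)).mul_const b)
  refine ⟨h1 x hx, ?_⟩
  have h2 : deriv (fun x => P (x, w) * a - Q (x, w) * b) =ᶠ[𝓝 x]
      fun y => dx P (y, w) * a - dx Q (y, w) * b := by
    have h3 : {y : ℂ | ‖y‖ < 2} ∈ 𝓝 x :=
      (isOpen_lt continuous_norm continuous_const).mem_nhds hx
    filter_upwards [h3] with y hy
    exact (h1 y hy).deriv
  rw [h2.deriv_eq]
  exact (((UTWO_hd (UTWO_an hP (x, w) ⟨hx, hw⟩)).mul_const a).sub
      ((UTWO_hd (UTWO_an hQ (x, w) ⟨hx, hw⟩)).mul_const b)).deriv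

theorem UTWO_ne {P Q : ℂ × ℂ → ℂ} {r : ℝ} (hP : AnalyticOnNhd ℂ P (TB 2 r))
    (hQ : AnalyticOnNhd ℂ Q (TB 2 r)) {x w : ℂ} (hx : ‖x‖ < 2) (hw : ‖w‖ < r)
    (hc : cx P Q (x, w) = 0) (hn : nn P Q (x, w) ≠ 0) :
    dx (dx P) (x, w) * Q (x, w) - dx (dx Q) (x, w) * P (x, w) ≠ 0 := by
  have hm : (x, w) ∈ TB 2 r := ⟨hx, hw⟩
  have h1 : AnalyticAt ℂ (cx P Q) (x, w) :=
    ((hQ _ hm).mul (UTWO_an hP _ hm)).sub ((hP _ hm).mul (UTWO_an hQ _ hm))
  have h2 := UTWO_hd h1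
  have h3 : HasDerivAt (fun x => cx P Q (x, w))
      ((dx Q (x, w) * dx P (x, w) + Q (x, w) * dx (dx P) (x, w)) -
        (dx P (x, w) * dx Q (x, w) + P (x, w) * dx (dx Q) (x, w))) x :=
    ((UTWO_hd (hQ _ hm)).mul (UTWO_hd (UTWO_an hP _ hm))).sub
      ((UTWO_hd (hP _ hm)).mul (UTWO_hd (UTWO_an hQ _ hm)))
  have h4 := h2.unique h3
  intro h0
  apply hn
  have h5 : dx (cx P Q) (x, w) = 0 := by
    rw [h4]
    linear_combination h0
  have h6 : ef P Q (x, w) = cv P Q (x, w) • ((1 : ℂ), (0 : ℂ)) := by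
    unfold ef
    rw [hc]
    simp
  unfold nn
  rw [hc, zero_mul, h6, map_smul]
  have h7 : fderiv ℂ (cx P Q) (x, w) ((1 : ℂ), (0 : ℂ)) = 0 := h5
  rw [h7]
  simp

theorem UTWO (hDIS : UDIS_stmt) (hFLD : UFLD_stmt) (hTZ : UTZ_stmt) : UTWO_stmt := by
  intro P Q r r0 ζ hol hr0 hr0r hRg R w1 x1 x X hR hRr0 hw1 hx1 hc hX
  have hRr : R < r := hRr0.trans hr0r
  have hm1 : (x1, w1) ∈ TB 2 r := ⟨by linarith [hx1], by rw [hw1]; exact hRr⟩
  -- the equation on the branches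
  have hbr : ∀ i, ∀ w ∈ ball (0 : ℂ) R, P (X i w, w) = ζ * Q (X i w, w) := by
    intro i w hw
    obtain ⟨h1, h2, -⟩ := hX i
    have h0 : (0 : ℂ) ∈ ball (0 : ℂ) R := mem_ball_self hR
    have hx0 : ‖x i‖ < 1 := by
      have := h2.lt 0 h0
      rwa [h2.ini] at this
    have hQ0 : Q (x i, 0) ≠ 0 := by
      intro hQ
      rcases hol.ne (x i, 0) ⟨by linarith, by simp; linarith⟩ with hne | hne
      · apply hne
        rw [h1, hQ, mul_zero]
      · exact hne hQ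
    have h3 := h2.eq w hw
    rw [h1] at h3
    apply mul_right_cancel₀ hQ0
    rw [h3]
    ring
  -- the limit point
  have hq1 : P (x1, w1) = ζ * Q (x1, w1) := by
    obtain ⟨-, -, w, hw, hwl, hXl⟩ := hX 0
    have hl : Tendsto (fun k => (X 0 (w k), w k)) atTop (𝓝 (x1, w1)) := hXl.prodMk_nhds hwl
    have h1 : Tendsto (fun k => P (X 0 (w k), w k)) atTop (𝓝 (P (x1, w1))) :=
      (hol.hP _ hm1).continuousAt.tendsto.comp hl
    have h2 : Tendsto (fun k => ζ * Q (X 0 (w k), w k)) atTop (𝓝 (ζ * Q (x1, w1))) :=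
      ((hol.hQ _ hm1).continuousAt.tendsto.comp hl).const_mul ζ
    refine tendsto_nhds_unique h1 (h2.congr fun k => ?_)
    exact (hbr 0 (w k) (by rw [mem_ball_zero_iff]; exact hw k)).symm
  have hnn : nn P Q (x1, w1) ≠ 0 :=
    (hRg (x1, w1) ⟨hx1, by rw [hw1]; exact hRr0⟩ hq1).2 hc
  have hlim : ∀ i, Tendsto (X i) (𝓝[ball 0 R] w1) (𝓝 x1) := fun i =>
    hFLD P Q r hol (x i) R (X i) w1 x1 hR hRr (hX i).2.1 hw1 (hX i).2.2 hx1 hc hnn
  set a := Q (x1, w1) with ha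
  set b := P (x1, w1) with hb
  set c := dx (dx P) (x1, w1) * a - dx (dx Q) (x1, w1) * b with hcdef
  have hc0 : c ≠ 0 := UTWO_ne hol.hP hol.hQ hm1.1 hm1.2 hc hnn
  -- a small ball
  have hcont : ContinuousAt (fun p => dx (dx P) p * a - dx (dx Q) p * b) (x1, w1) :=
    ((UTWO_an (UTWO_an hol.hP) _ hm1).continuousAt.mul continuousAt_const).sub
      ((UTWO_an (UTWO_an hol.hQ) _ hm1).continuousAt.mul continuousAt_const)
  have hev1 : ∀ᶠ p in 𝓝 (x1, w1), ‖(dx (dx P) p * a - dx (dx Q) p * b) - c‖ ≤ ‖c‖ / 2 := by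
    have h1 : Tendsto (fun p => ‖(dx (dx P) p * a - dx (dx Q) p * b) - c‖) (𝓝 (x1, w1))
        (𝓝 ‖c - c‖) := (hcont.tendsto.sub_const c).norm
    rw [sub_self, norm_zero] at h1
    have h2 : (0 : ℝ) < ‖c‖ / 2 := by
      have := norm_pos_iff.2 hc0
      linarith
    filter_upwards [h1.eventually (gt_mem_nhds h2)] with p hp
    exact hp.le
  have hev2 : ∀ᶠ p in 𝓝 (x1, w1), p ∈ TB 2 r := by
    have ho : IsOpen (TB 2 r) := by
      apply IsOpen.inter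
      · exact isOpen_lt (continuous_norm.comp continuous_fst) continuous_const
      · exact isOpen_lt (continuous_norm.comp continuous_snd) continuous_const
    exact ho.mem_nhds hm1
  obtain ⟨ε, hε, hball⟩ := Metric.eventually_nhds_iff_ball.1 (hev1.and hev2)
  have hnb : (𝓝[ball 0 R] w1).NeBot := by
    rw [← mem_closure_iff_nhdsWithin_neBot, closure_ball _ hR.ne', mem_closedBall_zero_iff]
    exact hw1.le
  have hev3 : ∀ᶠ w in 𝓝[ball 0 R] w1, w ∈ ball (0 : ℂ) R ∧ w ∈ ball w1 ε ∧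
      X 0 w ∈ ball x1 ε ∧ X 1 w ∈ ball x1 ε ∧ X 2 w ∈ ball x1 ε := by
    filter_upwards [self_mem_nhdsWithin, mem_nhdsWithin_of_mem_nhds (ball_mem_nhds w1 hε),
      (hlim 0).eventually (ball_mem_nhds x1 hε), (hlim 1).eventually (ball_mem_nhds x1 hε),
      (hlim 2).eventually (ball_mem_nhds x1 hε)] with w h1 h2 h3 h4 h5
    exact ⟨h1, h2, h3, h4, h5⟩
  obtain ⟨w, hwR, hwε, hX0, hX1, hX2⟩ := hev3.exists
  have hin : ∀ y ∈ ball x1 ε, (y, w) ∈ ball (x1, w1) ε := by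
    intro y hy
    rw [← ball_prod_same]
    exact ⟨hy, hwε⟩
  have hzero : ∀ i, P (X i w, w) * a - Q (X i w, w) * b = 0 := by
    intro i
    rw [hbr i w hwR, hq1]
    ring
  have htz := hTZ (fun y => P (y, w) * a - Q (y, w) * b) x1 c ε hε hc0
    (fun y hy => by
      have h1 := (hball _ (hin y hy)).2
      exact (UTWO_dd hol.hP hol.hQ a b h1.1 h1.2).1.differentiableAt.differentiableWithinAt)
    (fun y hy => by
      have h1 := (hball _ (hin y hy)).2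
      rw [(UTWO_dd hol.hP hol.hQ a b h1.1 h1.2).2]
      exact (hball _ (hin y hy)).1)
    (X 0 w) hX0 (X 1 w) hX1 (X 2 w) hX2 (hzero 0) (hzero 1) (hzero 2)
  have hd : ∀ i j, X i w = X j w → x i = x j := fun i j hij =>
    hDIS P Q r r0 ζ hol hr0 hr0r.le hRg (x i) (x j) R (X i) (X j) (hX i).1 (hX j).1 hR hRr0.le
      (hX i).2.1 (hX j).2.1 ⟨w, hwR, hij⟩
  rcases htz with h | h | h
  · exact Or.inl (hd 0 1 h)
  · exact Or.inr (Or.inl (hd 0 2 h))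
  · exact Or.inr (Or.inr (hd 1 2 h))

end Pool.Agent.P2U
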