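import Pool.Agent.helper83.P2.SpecX

set_option autoImplicit false

namespace Pool.Agent.P2

open Metric Set Filter Topology Finset

theorem XAC_aux {ι : Type} [Fintype ι] (F : ι → ι → ℝ) (x y : ι → ℝ)
    (h0 : ∀ b b', 0 ≤ F b b') (h1 : ∀ b b', F b b' ≤ 1) (h2 : ∀ b b', F b b' + F b' b ≤ 1)
    (hx : ∀ b, 0 ≤ x b) (hs : ∑ b, x b ≤ 1) :
    ∑ b, ∑ b', F b b' * (x b * y b') ≤ 1 / 2 + ∑ b, |x b - y b| := by
  have hs0 : 0 ≤ ∑ b, x b := Finset.sum_nonneg fun b _ => hx b
  have hA : ∑ b, ∑ b', F b b' * (x b * x b') ≤ 1 / 2 := by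
    have e1 : ∑ b, ∑ b', F b b' * (x b * x b') = ∑ b, ∑ b', F b' b * (x b * x b') := by
      rw [Finset.sum_comm]
      refine Finset.sum_congr rfl fun b _ => Finset.sum_congr rfl fun b' _ => ?_
      ring
    have e2 : 2 * ∑ b, ∑ b', F b b' * (x b * x b') =
        ∑ b, ∑ b', (F b b' + F b' b) * (x b * x b') := by
      rw [two_mul]
      nth_rewrite 2 [e1]
      rw [← Finset.sum_add_distrib]
      refine Finset.sum_congr rfl fun b _ => ?_
      rw [← Finset.sum_add_distrib]
      refine Finset.sum_congr rfl fun b' _ => ?_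
      ring
    have e3 : ∑ b, ∑ b', (F b b' + F b' b) * (x b * x b') ≤ ∑ b, ∑ b', x b * x b' := by
      refine Finset.sum_le_sum fun b _ => Finset.sum_le_sum fun b' _ => ?_
      have := mul_nonneg (hx b) (hx b')
      nlinarith [h2 b b']
    have e4 : ∑ b, ∑ b', x b * x b' = (∑ b, x b) * ∑ b', x b' := by
      rw [Finset.sum_mul_sum]
    nlinarith
  have hB : ∑ b, ∑ b', F b b' * (x b * (y b' - x b')) ≤ ∑ b, |x b - y b| := by
    have e1 : ∑ b, ∑ b', F b b' * (x b * (y b' - x b')) ≤ ∑ b, ∑ b', x b * |x b' - y b'| := by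
      refine Finset.sum_le_sum fun b _ => Finset.sum_le_sum fun b' _ => ?_
      have ha : y b' - x b' ≤ |x b' - y b'| := by
        rw [abs_sub_comm]
        exact le_abs_self _
      have hb : 0 ≤ |x b' - y b'| := abs_nonneg _
      calc F b b' * (x b * (y b' - x b')) ≤ F b b' * (x b * |x b' - y b'|) :=
            mul_le_mul_of_nonneg_left (mul_le_mul_of_nonneg_left ha (hx b)) (h0 b b')
        _ ≤ 1 * (x b * |x b' - y b'|) :=
            mul_le_mul_of_nonneg_right (h1 b b') (mul_nonneg (hx b) hb)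
        _ = x b * |x b' - y b'| := one_mul _
    have e2 : ∑ b, ∑ b', x b * |x b' - y b'| = (∑ b, x b) * ∑ b', |x b' - y b'| := by
      rw [Finset.sum_mul_sum]
    have e3 : 0 ≤ ∑ b', |x b' - y b'| := Finset.sum_nonneg fun b _ => abs_nonneg _
    nlinarith
  have hAB : ∑ b, ∑ b', F b b' * (x b * y b') = ∑ b, ∑ b', F b b' * (x b * x b') +
      ∑ b, ∑ b', F b b' * (x b * (y b' - x b')) := by
    rw [← Finset.sum_add_distrib]
    refine Finset.sum_congr rfl fun b _ => ?_
    rw [← Finset.sum_add_distrib]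
    refine Finset.sum_congr rfl fun b' _ => ?_
    ring
  rw [hAB]
  linarith

open Classical in
theorem XAC : XAC_stmt := by
  intro ι _ E x y hE hx hs
  have h := XAC_aux (fun b b' => if E b b' then (1 : ℝ) else 0) x y
    (fun b b' => by split_ifs <;> norm_num)
    (fun b b' => by split_ifs <;> norm_num)
    (fun b b' => by
      by_cases h1 : E b b'
      · rw [if_pos h1, if_neg (hE b b' h1)]
        norm_num
      · rw [if_neg h1]
        split_ifs <;> norm_num) hx hs
  refine le_trans (le_of_eq ?_) h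
  refine Finset.sum_congr rfl fun b _ => Finset.sum_congr rfl fun b' _ => ?_
  by_cases h1 : E b b'
  · rw [if_pos h1, if_pos h1, one_mul]
  · rw [if_neg h1, if_neg h1, zero_mul]

end Pool.Agent.P2
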